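import Pool.Agent.Helper50_PN.Stmts

/-!
# Squad PN, module EVN: order at the good places of the strata
-/

set_option autoImplicit false
set_option linter.unusedSectionVars false

universe u v

namespace Pool.Agent.PN.H64

open MvPolynomial PGH

theorem evP_map {n N q : ℕ} {R S : Type*} [CommRing R] [CommRing S] (f : R →+* S)
    (a : Fin n → Fin N → R) (x : Fin n → PowerSeries R) (Q : Pol n N q) :
    evP (fun l j => f (a l j)) (fun l => PowerSeries.map f (x l)) Q = f (evP a x Q) := by
  have h : (evP (fun l j => f (a l j)) (fun l => PowerSeries.map f (x l)) :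
      Pol n N q →ₐ[ℤ] S).toRingHom = f.comp (evP a x : Pol n N q →ₐ[ℤ] R).toRingHom := by
    apply MvPolynomial.ringHom_ext
    · intro r
      simp
    · intro v
      rcases v with p | p <;> simp [evP, vals]
  exact congrArg (fun g : Pol n N q →+* S => g Q) h

/-- EVN. -/
theorem evn (hHsd : HsdStmt.{u}) : EvnStmt.{u} := by
  intro k E _ _ _ _ _ _ P D hD n N q m' d m a x ha hx I j hI hord Q hQ
  obtain ⟨hs1, hsm, hsa, hsc⟩ := hHsd D
  have hIne : I.Nonempty := Finset.card_pos.1 (by omega)
  set i₀ := I.min' hIne with hi₀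
  have hi₀I : i₀ ∈ I := Finset.min'_mem _ _
  have hmin : ∀ i ∈ I, i₀ ≤ i := fun i hi => Finset.min'_le _ _ hi
  -- the valuation ring
  set R : Subring E := P.v.integer with hR
  have hRm : ∀ y : E, y ∈ R ↔ P.Ge 0 y := by
    intro y
    rw [P.ge_zero_iff]
    rfl
  have hDR : ∀ y : E, P.Ge 0 y → ∀ s, P.Ge 0 (PowerSeries.coeff s (hs D y)) := by
    intro y hy s
    rw [hs, PowerSeries.coeff_mk]
    have h1 := P.ge_const ((s.factorial : k)⁻¹)
    rw [map_inv₀, map_natCast] at h1
    rw [div_eq_mul_inv]
    exact (DGe.iter_zero hD hy s).mul' h1 (by omega)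
  -- lift of a series
  let lift : ∀ y : E, P.Ge 0 y → PowerSeries R := fun y hy =>
    PowerSeries.mk fun s => ⟨PowerSeries.coeff s (hs D y), (hRm _).2 (hDR y hy s)⟩
  have hlift : ∀ y hy, PowerSeries.map R.subtype (lift y hy) = hs D y := by
    intro y hy
    ext s
    rw [PowerSeries.coeff_map]
    simp [lift]
  let a' : Fin n → Fin N → R := fun l j => ⟨algebraMap k E (a l j), (hRm _).2 (P.ge_const _)⟩
  let x' : Fin n → PowerSeries R := fun l => lift (x l) (hx l)
  have hx' : ∀ l, PowerSeries.map R.subtype (x' l) = hs D (x l) := fun l => hlift _ (hx l)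
  set w := x i₀ - algebraMap k E (a i₀ (j i₀)) with hw
  have hword : P.ord w = 1 := hord i₀ hi₀I
  have hw0 : w ≠ 0 := by
    intro h
    rw [h, P.ord_zero] at hword
    exact zero_ne_one hword
  have hwge : P.Ge 1 w := (P.ge_iff hw0).2 hword.ge
  have hηge : ∀ i ∈ I, P.Ge 0 ((x i - algebraMap k E (a i (j i))) / w) := by
    intro i hi
    have h1 : P.Ge 1 (x i - algebraMap k E (a i (j i))) := by
      have h2 := P.ge_ord (y := x i - algebraMap k E (a i (j i)))
      rwa [hord i hi] at h2
    have hinv : P.Ge (-1) w⁻¹ := (P.ge_iff (inv_ne_zero hw0)).2 (by rw [P.ord_inv, hword])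
    rw [div_eq_mul_inv]
    exact h1.mul' hinv (by norm_num)
  classical
  let η' : Fin n → PowerSeries R := fun i => if h : i ∈ I then lift _ (hηge i h) else 0
  have hrel : ∀ i ∈ I, i ≠ i₀ → ∀ s ≤ q, PowerSeries.coeff s (x' i) =
      PowerSeries.coeff s (PowerSeries.C (a' i (j i)) +
        η' i * (x' i₀ - PowerSeries.C (a' i₀ (j i₀)))) := by
    intro i hi _ s _
    have hinj : Function.Injective (PowerSeries.map R.subtype) := by
      intro f g hfg
      ext t
      have := congrArg (PowerSeries.coeff t) hfg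
      rw [PowerSeries.coeff_map, PowerSeries.coeff_map] at this
      exact this
    have h1 : x' i = PowerSeries.C (a' i (j i)) +
        η' i * (x' i₀ - PowerSeries.C (a' i₀ (j i₀))) := by
      apply hinj
      rw [map_add, map_mul, map_sub, PowerSeries.map_C, PowerSeries.map_C]
      have e1 : PowerSeries.map R.subtype (η' i) =
          hs D ((x i - algebraMap k E (a i (j i))) / w) := by
        simp only [η', dif_pos hi]
        exact hlift _ (hηge i hi)
      rw [e1, hx', hx']
      change hs D (x i) = PowerSeries.C (algebraMap k E (a i (j i))) +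
        hs D ((x i - algebraMap k E (a i (j i))) / w) *
          (hs D (x i₀) - PowerSeries.C (algebraMap k E (a i₀ (j i₀))))
      have e2 : hs D (x i₀) = hs D w + PowerSeries.C (algebraMap k E (a i₀ (j i₀))) := by
        rw [← hsc _ (ha i₀ (j i₀)), ← hsa]
        congr 1
        rw [hw]
        ring
      rw [e2, add_sub_cancel_right, ← hsm, div_mul_cancel₀ _ hw0, ← hsc _ (ha i (j i)), ← hsa]
      congr 1
      ring
    rw [h1]
  have hdvd := hQ.nod I i₀ j hi₀I hmin hI R a' x' η' hrel
  obtain ⟨r, hr⟩ := hdvd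
  have h2 : evP (fun l j => algebraMap k E (a l j)) (fun l => hs D (x l)) Q =
      w ^ (I.card * m') * (r : E) := by
    have e1 := evP_map R.subtype a' x' Q
    have e2 : (fun l => PowerSeries.map R.subtype (x' l)) = fun l => hs D (x l) := by
      funext l
      exact hx' l
    have e3 : (fun l j => R.subtype (a' l j)) = fun l j => algebraMap k E (a l j) := rfl
    rw [e2, e3, hr] at e1
    rw [e1, map_mul, map_pow, map_sub]
    congr 2
    change PowerSeries.coeff 0 (hs D (x i₀)) - algebraMap k E (a i₀ (j i₀)) = w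
    rw [hs, PowerSeries.coeff_mk, hw]
    simp
  rw [h2]
  have hrge : P.Ge 0 (r : E) := (hRm _).1 r.2
  refine (hwge.pow (I.card * m')).mul' hrge ?_
  push_cast
  omega

end Pool.Agent.PN.H64
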