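import Pool.Agent.Helper50_PN.Stmts

/-!
# Squad PN, module EVP: order of a family at any place
-/

set_option autoImplicit false
set_option linter.unusedSectionVars false

universe u v

namespace Pool.Agent.PN.H64

open MvPolynomial PGH

section

variable {L E : Type*} [Field L] [Field E] [CharZero L] [CharZero E] [Algebra L E]

theorem ge_prod {P : Place L E} {ι : Type*} (s : Finset ι) (f : ι → E) (b : ι → ℕ)
    (h : ∀ i ∈ s, P.Ge (-(b i : ℤ)) (f i)) : P.Ge (-((∑ i ∈ s, b i : ℕ) : ℤ)) (∏ i ∈ s, f i) := by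
  classical
  induction s using Finset.induction_on with
  | empty => simp
  | insert a s ha ih =>
    rw [Finset.prod_insert ha, Finset.sum_insert ha]
    refine (h a (Finset.mem_insert_self _ _)).mul'
      (ih fun i hi => h i (Finset.mem_insert_of_mem hi)) ?_
    push_cast
    omega

theorem ge_pow {P : Place L E} {y : E} {b : ℕ} (h : P.Ge (-(b : ℤ)) y) (n : ℕ) :
    P.Ge (-((n * b : ℕ) : ℤ)) (y ^ n) := by
  refine (h.pow n).mono (le_of_eq ?_)
  push_cast
  ring

theorem ge_iter {P : Place L E} {D : Derivation ℤ E E} {cp : ℕ} (hD : DGe P D (-(cp : ℤ)))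
    {y : E} {ρ : ℕ} (hy : P.Ge (-(ρ : ℤ)) y) (l : ℕ) :
    P.Ge (-(((1 + l) * ρ + 2 * l * cp : ℕ) : ℤ)) ((⇑D)^[l] y) := by
  rcases Nat.eq_zero_or_pos (ρ + cp) with h0 | h0
  · obtain ⟨rfl, rfl⟩ : ρ = 0 ∧ cp = 0 := by omega
    have hD0 : DGe P D 0 := by simpa using hD
    have hy0 : P.Ge 0 y := by simpa using hy
    have := DGe.iter_zero hD0 hy0 l
    simpa using this
  · refine (DGe.iter hD hy l).mono ?_
    push_cast
    have h1 : (1 : ℤ) ≤ ρ + cp := by exact_mod_cast h0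
    nlinarith [mul_nonneg (Int.natCast_nonneg l) (sub_nonneg.2 h1)]

theorem ge_div {P : Place L E} {y : E} {n : ℤ} (h : P.Ge n y) (s : ℕ) :
    P.Ge n (y / (s.factorial : E)) := by
  have h1 := P.ge_const ((s.factorial : L)⁻¹)
  rw [map_inv₀, map_natCast] at h1
  rw [div_eq_mul_inv]
  exact h.mul' h1 (by omega)

theorem ge_hs {P : Place L E} {D : Derivation ℤ E E} {cp : ℕ} (hD : DGe P D (-(cp : ℤ)))
    {y : E} {ρ : ℕ} (hy : P.Ge (-(ρ : ℤ)) y) (l : ℕ) :
    P.Ge (-(((1 + l) * ρ + 2 * l * cp : ℕ) : ℤ)) (PowerSeries.coeff l (hs D y)) := by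
  rw [hs, PowerSeries.coeff_mk]
  exact ge_div (ge_iter hD hy l) l

end

/-- EVP. -/
theorem evp : EvpStmt.{u} := by
  intro k E _ _ _ _ _ _ P D cp hD n N q m' d m a x ρ hx Q hQ
  set b : Sig n N q → ℕ := Sum.elim (fun _ => 0)
    (fun p => (1 + (p.2 : ℕ)) * ρ p.1 + 2 * (p.2 : ℕ) * cp) with hb
  set val : Sig n N q → E :=
    vals (fun l j => algebraMap k E (a l j)) (fun l => hs D (x l)) with hval
  have hv : ∀ v, P.Ge (-(b v : ℤ)) (val v) := by
    rintro (p | p)
    · simpa [hb, hval, vals] using P.ge_const (a p.1 p.2)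
    · exact ge_hs hD (hx p.1) p.2
  rw [evP, aeval_def, eval₂_eq']
  refine Place.Ge.sum fun s hs => ?_
  have hprod := ge_prod (P := P) Finset.univ (fun v => val v ^ s v) (fun v => s v * b v)
    fun v _ => ge_pow (hv v) (s v)
  have hint : P.Ge 0 (algebraMap ℤ E (coeff s Q)) := by
    rw [eq_intCast]
    exact P.ge_int _
  refine hint.mul' hprod ?_
  rw [zero_add, neg_le_neg_iff]
  have h0 : ∀ l, ∑ t : Fin (q + 1), s (Sum.inr (l, t)) ≤ d := by
    intro l
    have h := hQ.deg l s hs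
    rw [Finsupp.sum_fintype _ _ (fun _ => by simp)] at h
    simp only [Fintype.sum_sum_type, dw, Sum.elim_inl, Sum.elim_inr, mul_zero,
      Finset.sum_const_zero, zero_add, Fintype.sum_prod_type] at h
    rw [Finset.sum_eq_single l] at h
    · simpa using h
    · intro l' _ hl'
      simp [hl']
    · intro hl
      exact absurd (Finset.mem_univ l) hl
  have h2 : ∑ l, ∑ t : Fin (q + 1), s (Sum.inr (l, t)) * (t : ℕ) ≤ m := by
    have h := hQ.wt s hs
    rw [Finsupp.sum_fintype _ _ (fun _ => by simp)] at h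
    simpa only [Fintype.sum_sum_type, ww, Sum.elim_inl, Sum.elim_inr, mul_zero,
      Finset.sum_const_zero, zero_add, Fintype.sum_prod_type] using h
  have h3 : ∀ l, ∑ t : Fin (q + 1), s (Sum.inr (l, t)) * (t : ℕ) ≤ m := fun l =>
    (Finset.single_le_sum (f := fun l => ∑ t : Fin (q + 1), s (Sum.inr (l, t)) * (t : ℕ))
      (fun _ _ => Nat.zero_le _) (Finset.mem_univ l)).trans h2
  have key : ∑ v, s v * b v ≤ (d + m) * ∑ l, ρ l + 2 * m * cp := by
    have e1 : ∑ v, s v * b v = ∑ l, (ρ l * ∑ t : Fin (q + 1), s (Sum.inr (l, t)) +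
        ρ l * ∑ t : Fin (q + 1), s (Sum.inr (l, t)) * (t : ℕ)) +
        2 * cp * ∑ l, ∑ t : Fin (q + 1), s (Sum.inr (l, t)) * (t : ℕ) := by
      simp only [hb, Fintype.sum_sum_type, Sum.elim_inl, Sum.elim_inr, mul_zero,
        Finset.sum_const_zero, zero_add, Fintype.sum_prod_type, Finset.mul_sum,
        ← Finset.sum_add_distrib]
      refine Finset.sum_congr rfl fun l _ => Finset.sum_congr rfl fun t _ => ?_
      ring
    rw [e1]
    have e2 : ∑ l, (ρ l * ∑ t : Fin (q + 1), s (Sum.inr (l, t)) +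
        ρ l * ∑ t : Fin (q + 1), s (Sum.inr (l, t)) * (t : ℕ)) ≤ (d + m) * ∑ l, ρ l := by
      rw [Finset.mul_sum]
      refine Finset.sum_le_sum fun l _ => ?_
      nlinarith [Nat.mul_le_mul_left (ρ l) (h0 l), Nat.mul_le_mul_left (ρ l) (h3 l)]
    nlinarith [Nat.mul_le_mul_left (2 * cp) h2]
  exact_mod_cast key

end Pool.Agent.PN.H64
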